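import Pool.Agent.TH977.IP.Cls

set_option autoImplicit false

/-!
The random walk model for the exponents `x_i` along the orbits of negative odd integers under the Syracuse
map. For a negative odd integer `N` let `x_{i+1} = v_2 (3 Syr^i N + 1)`. In the model the exponents are
independent and equal to `a ≥ 1` with probability `2 ^ (-a)`. The first `K r` exponents, where `K r` may
be as large as `(1 - κ) log X / log (4 / 3)` (after this number of steps typical orbits of the
`-X ≤ N < 0` have size about `X ^ κ`), are cut into blocks of lengths at least `κ log X`. The law of the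
vector of the sums of the exponents in the blocks, for the `-X ≤ N < 0` in any set `S` invariant under
the Syracuse map (for example the basin of one of the three known cycles), and even in any class
mod `3 ^ m`, `m ^ 2 ≤ log X / 4`, is as close as we like, in total variation and uniformly in all data,
to its law in the model.
-/

namespace Pool.Agent.Results.MP_005f52_nt.ExponentBlocks

open Filter Topology MeasureTheory ProbabilityTheory

/-- the Syracuse map on the odd integers -/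
def Syr (N : ℤ) : ℤ := (3 * N + 1) / 2 ^ padicValInt 2 (3 * N + 1)

/-- the exponent `x_{i+1}` of `N`: the exponent of `2` in `3 Syr^i(N) + 1` -/
def val (N : ℤ) (i : ℕ) : ℕ := padicValInt 2 (3 * Syr^[i] N + 1)

/-- `S` is invariant: a negative odd integer `N` is in `S` if and only if `Syr N` is in `S` -/
def Invariant (S : Set ℤ) : Prop := ∀ N : ℤ, N < 0 → Odd N → (N ∈ S ↔ Syr N ∈ S)

/-- the sums of the sequence `a` over the blocks `[K 0, K 1), ..., [K (r-1), K r)` -/
def blocks (K : ℕ → ℕ) (r : ℕ) (a : ℕ → ℕ) : Fin r → ℕ := fun i => ∑ j ∈ Finset.Ico (K i) (K (i + 1)), a j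

/-- blocks of lengths at least `κ log X` which cover `[0, K r)`, `K r ≤ (1 - κ) log X / log (4/3)` -/
def Admissible (κ : ℝ) (X r : ℕ) (K : ℕ → ℕ) : Prop :=
  K 0 = 0 ∧ (∀ i < r, (K i : ℝ) + κ * Real.log X ≤ K (i + 1)) ∧
    (K r : ℝ) ≤ (1 - κ) * Real.log X / Real.log (4 / 3)

/-- `1 / 2` -/
noncomputable def half : unitInterval := ⟨1 / 2, by norm_num, by norm_num⟩

/-- the law of a sequence of independent random variables with the geometric law: each of them is `a`
with probability `2 ^ (-a-1)`, `a = 0, 1, 2, ...` -/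
noncomputable def model : Measure (ℕ → ℕ) := Measure.infinitePi fun _ => geometricMeasure half

/-- the probability in the model that the vector of the sums of the exponents `ω j + 1` in the blocks
is in `E` -/
noncomputable def prob (K : ℕ → ℕ) (r : ℕ) (E : Set (Fin r → ℕ)) : ℝ :=
  model.real {ω | blocks K r (fun j => ω j + 1) ∈ E}

/-- the number of the odd `N` with `-X ≤ N < 0`, `N ≡ c` mod `3 ^ m` and the property `P` -/
noncomputable def negCount (X m : ℕ) (c : ℤ) (P : ℤ → Prop) : ℝ :=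
  ({N : ℤ | -(X : ℤ) ≤ N ∧ N < 0 ∧ Odd N ∧ (3 : ℤ) ^ m ∣ N - c ∧ P N}.ncard : ℝ)

open Pool.Agent.TH977.IP Pool.Agent.H499R2.ND

theorem model_eq : model = TJ.PP := rfl

theorem Syr_eq {N M : ℤ} {v : ℕ} (h : 3 * N + 1 = 2 ^ v * M) (hM : M % 2 = 1) : Syr N = M := by
  have hM0 : M ≠ 0 := by rintro rfl; norm_num at hM
  have h1 : padicValInt 2 (3 * N + 1) = v := by
    rw [h, padicValInt.mul (by positivity) hM0]
    have h2 : padicValInt 2 M = 0 := padicValInt.eq_zero_of_not_dvd (by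
      intro h3
      have : (2 : ℤ) ∣ M := by exact_mod_cast h3
      omega)
    have h3 : padicValInt 2 ((2 : ℤ) ^ v) = v := by
      have e : ((2 : ℤ) ^ v) = ((2 ^ v : ℕ) : ℤ) := by push_cast; ring
      rw [e, padicValInt.of_nat, padicValNat.prime_pow]
    rw [h2, h3, add_zero]
  unfold Syr
  rw [h1, h, Int.mul_ediv_cancel_left _ (by positivity)]

theorem exists_pow (n : ℕ) : ∀ x : ℤ, x ≠ 0 → x.natAbs ≤ n →
    ∃ (v : ℕ) (M : ℤ), x = 2 ^ v * M ∧ M % 2 = 1 := by
  induction n with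
  | zero => intro x hx h; omega
  | succ n ih =>
    intro x hx h
    rcases Int.emod_two_eq_zero_or_one x with h1 | h1
    · obtain ⟨v, M, h2, h3⟩ := ih (x / 2) (by omega) (by omega)
      refine ⟨v + 1, M, ?_, h3⟩
      have : x = 2 * (x / 2) := by omega
      rw [this, h2]
      ring
    · exact ⟨0, x, by simp, h1⟩

/-- `m` is the odd part of `x` -/
def OP (x m : ℤ) : Prop := m % 2 = 1 ∧ ∃ e : ℕ, x = 2 ^ e * m

theorem OP_two {x m : ℤ} : OP (2 * x) m ↔ OP x m := by
  constructor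
  · rintro ⟨h1, e, h2⟩
    refine ⟨h1, ?_⟩
    rcases e with _ | e
    · rw [pow_zero, one_mul] at h2; omega
    · refine ⟨e, ?_⟩
      rw [pow_succ] at h2
      have : (2 : ℤ) ^ e * 2 * m = 2 * (2 ^ e * m) := by ring
      rw [this] at h2
      omega
  · rintro ⟨h1, e, h2⟩
    exact ⟨h1, e + 1, by rw [h2, pow_succ]; ring⟩

theorem OP_odd {x m : ℤ} (hx : x % 2 = 1) : OP x m ↔ m = x := by
  constructor
  · rintro ⟨h1, e, h2⟩
    rcases e with _ | e
    · rw [pow_zero, one_mul] at h2; exact h2.symm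
    · exfalso
      rw [pow_succ] at h2
      have : (2 : ℤ) ^ e * 2 * m = 2 * (2 ^ e * m) := by ring
      rw [this] at h2
      omega
  · rintro rfl
    exact ⟨hx, 0, by simp⟩

theorem OP_Td {x : ℤ} (hx : x % 2 = 1) (m : ℤ) : OP (Td 1 x) m ↔ m = Syr x := by
  obtain ⟨w, M, h1, h2⟩ := exists_pow _ (3 * x + 1) (by omega) le_rfl
  have hS : Syr x = M := Syr_eq h1 h2
  have hT : 2 * Td 1 x = 2 ^ w * M := by
    unfold Td
    rw [if_neg (by omega), ← h1]
    omega
  rw [← OP_two, hT, hS]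
  have hpow : ∀ (w : ℕ), OP (2 ^ w * M) m ↔ OP M m := by
    intro w
    induction w with
    | zero => rw [pow_zero, one_mul]
    | succ w ih => rw [pow_succ, show (2 : ℤ) ^ w * 2 * M = 2 * (2 ^ w * M) by ring, OP_two, ih]
  rw [hpow, OP_odd h2]

/-- the negative integers whose odd part is in `S` -/
def Lift (S : Set ℤ) : Set ℤ := {x : ℤ | x < 0 ∧ ∃ m ∈ S, OP x m}

theorem lift_odd {S : Set ℤ} {x : ℤ} (hx : x % 2 = 1) (hx0 : x < 0) : x ∈ Lift S ↔ x ∈ S := by
  constructor
  · rintro ⟨_, m, hm, h⟩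
    rw [OP_odd hx] at h
    rw [← h]; exact hm
  · intro h
    exact ⟨hx0, x, h, (OP_odd hx).2 rfl⟩

theorem lift_inv {S : Set ℤ} (hS : Invariant S) : Inv 1 (Lift S) := by
  intro x
  have hsg := Td_one_sign (s := -1) (Or.inr rfl) x
  have hsg' : x < 0 ↔ Td 1 x < 0 := by
    constructor
    · intro h; have := hsg.1 (by omega); omega
    · intro h; have := hsg.2 (by omega); omega
  rcases Int.emod_two_eq_zero_or_one x with h | h
  · have e : x = 2 * Td 1 x := by unfold Td; rw [if_pos h]; omega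
    constructor
    · rintro ⟨h1, m, hm, h2⟩
      refine ⟨hsg'.1 h1, m, hm, ?_⟩
      rw [e] at h2
      exact OP_two.1 h2
    · rintro ⟨h1, m, hm, h2⟩
      refine ⟨hsg'.2 h1, m, hm, ?_⟩
      rw [e]
      exact OP_two.2 h2
  · have hodd : Odd x := Int.odd_iff.2 h
    constructor
    · rintro ⟨h1, m, hm, h2⟩
      rw [OP_odd h] at h2
      subst h2
      exact ⟨hsg'.1 h1, Syr m, (hS m h1 hodd).1 hm, (OP_Td h _).2 rfl⟩
    · rintro ⟨h1, m, hm, h2⟩
      rw [OP_Td h] at h2
      have h1' := hsg'.2 h1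
      subst h2
      exact ⟨h1', x, (hS x h1' hodd).2 hm, (OP_odd h).2 rfl⟩

/-- the exponents of `-x` under `3x-1` are those of `x` under `3x+1` -/
theorem sy_neg (x : ℤ) : Sy (-1) (-x) = -Syr x ∧ ex (-1) (-x) = padicValInt 2 (3 * x + 1) := by
  have h : ex (-1) (-x) = padicValInt 2 (3 * x + 1) := by
    unfold ex padicValInt
    have e : 3 * -x + -1 = -(3 * x + 1) := by ring
    rw [e, Int.natAbs_neg]
  refine ⟨?_, h⟩
  unfold Sy Syr
  rw [h]
  have e : 3 * -x + -1 = -(3 * x + 1) := by ring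
  rw [e]
  refine Int.neg_ediv_of_dvd ?_
  rcases eq_or_ne (3 * x + 1) 0 with h0 | h0
  · rw [h0]; exact dvd_zero _
  · have h1 : 2 ^ padicValNat 2 (3 * x + 1).natAbs ∣ (3 * x + 1).natAbs := pow_padicValNat_dvd
    have h2 : ((2 ^ padicValNat 2 (3 * x + 1).natAbs : ℕ) : ℤ) ∣ 3 * x + 1 := Int.natCast_dvd.2 h1
    unfold padicValInt
    exact_mod_cast h2

theorem iter_neg (x : ℤ) (k : ℕ) : (Sy (-1))^[k] (-x) = -(Syr^[k] x) := by
  induction k with
  | zero => rfl
  | succ k ih => rw [Function.iterate_succ_apply', Function.iterate_succ_apply', ih, (sy_neg _).1]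

theorem val_neg (x : ℤ) : (fun j => ex (-1) ((Sy (-1))^[j] (-x))) = val x := by
  funext j
  rw [iter_neg, (sy_neg _).2]
  rfl

/-- the list form of a set of vectors -/
def EL {r : ℕ} (E : Set (Fin r → ℕ)) (l : List ℕ) : Prop := ∃ t ∈ E, List.ofFn t = l

theorem EL_iff {K : ℕ → ℕ} {r : ℕ} (h0 : K 0 = 0) (hK : ∀ i < r, K i ≤ K (i + 1)) (E : Set (Fin r → ℕ))
    (a : ℕ → ℕ) : EL E (stf (List.ofFn fun i : Fin r => K (i + 1) - K i) a) ↔ blocks K r a ∈ E := by
  have h := stf_ofFn a r K hK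
  rw [h0] at h
  simp only [zero_add] at h
  unfold EL
  rw [h]
  constructor
  · rintro ⟨t, ht, he⟩
    have : t = blocks K r a := List.ofFn_injective he
    rwa [this] at ht
  · intro hb
    exact ⟨_, hb, rfl⟩

theorem meas_blocks (K : ℕ → ℕ) (r : ℕ) (E : Set (Fin r → ℕ)) :
    MeasurableSet {ω : ℕ → ℕ | blocks K r (fun j => ω j + 1) ∈ E} := by
  have h1 : Measurable (fun ω : ℕ → ℕ => blocks K r (fun j => ω j + 1)) := by
    apply measurable_pi_lambda
    intro i
    unfold blocks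
    apply Finset.measurable_sum
    intro j _
    exact (measurable_pi_apply j).add_const 1
  exact h1 (Set.to_countable E).measurableSet

theorem adm_of {κ : ℝ} (hκ : 0 < κ) {X r : ℕ} {K : ℕ → ℕ} (hX : 2 ≤ X) (h : Admissible κ X r K) :
    κ ≤ 1 ∧ (∀ i < r, K i ≤ K (i + 1)) ∧
    (∀ b ∈ (List.ofFn fun i : Fin r => K (i + 1) - K i), κ * Real.log X ≤ b) ∧
    (((List.ofFn fun i : Fin r => K (i + 1) - K i).sum : ℕ) : ℝ) ≤
      (1 - κ) * Real.log X / (2 * Pool.Agent.H319R2.Lln.mu) ∧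
    (List.ofFn fun i : Fin r => K (i + 1) - K i).sum = K r := by
  obtain ⟨h0, h1, h2⟩ := h
  have hXR : (1 : ℝ) < X := by exact_mod_cast hX
  have hL : 0 < Real.log X := Real.log_pos hXR
  have hmu := mu_pos'
  rw [log43] at h2
  have hmono : ∀ i < r, K i ≤ K (i + 1) := by
    intro i hi
    have h3 := h1 i hi
    have h4 : 0 < κ * Real.log X := by positivity
    have h5 : (K i : ℝ) ≤ K (i + 1) := by linarith
    exact_mod_cast h5
  have hs : (List.ofFn fun i : Fin r => K (i + 1) - K i).sum = K r := by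
    have := ofFn_sum r K hmono
    omega
  refine ⟨?_, hmono, ?_, by rw [hs]; exact h2, hs⟩
  · by_contra hcon
    push Not at hcon
    have h3 : (1 - κ) * Real.log X / (2 * Pool.Agent.H319R2.Lln.mu) < 0 := by
      apply div_neg_of_neg_of_pos _ (by positivity)
      exact mul_neg_of_neg_of_pos (by linarith) hL
    have h4 : (0 : ℝ) ≤ K r := Nat.cast_nonneg _
    linarith
  · intro b hb
    rw [List.mem_ofFn] at hb
    obtain ⟨i, rfl⟩ := hb
    have h3 := h1 i i.2
    rw [Nat.cast_sub (hmono i i.2)]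
    linarith

theorem count_cls {Z : Set ℤ} {P : ℤ → Prop} (X m : ℕ) (c : ℤ)
    (h : ∀ x : ℤ, 0 < x → Odd x → (x ∈ Z ↔ P (-x))) :
    negCount X m c P = ((cls Z 0 (X + 1) m 1 (-c)).card : ℝ) := by
  unfold negCount
  congr 1
  have e : {N : ℤ | -(X : ℤ) ≤ N ∧ N < 0 ∧ Odd N ∧ (3 : ℤ) ^ m ∣ N - c ∧ P N} =
      (fun x : ℤ => -x) '' (cls Z 0 (X + 1) m 1 (-c) : Set ℤ) := by
    ext N
    rw [Set.mem_image]
    constructor
    · rintro ⟨h1, h2, h3, h4, h5⟩
      refine ⟨-N, ?_, by simp⟩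
      rw [Finset.mem_coe, mem_cls]
      refine ⟨⟨?_, ?_⟩, h3.neg, (h (-N) (by omega) h3.neg).2 (by simpa using h5), ?_⟩
      · have : (0 : ℤ) ≤ -N := by omega
        exact_mod_cast this
      · have : -N < (X : ℤ) + 1 := by omega
        exact_mod_cast this
      · have e : 1 * -N - -c = -(N - c) := by ring
        rw [e]
        exact (dvd_neg).2 h4
    · rintro ⟨x, hx, rfl⟩
      rw [Finset.mem_coe, mem_cls] at hx
      obtain ⟨⟨h1, h2⟩, h3, h4, h5⟩ := hx
      have hx0 : (0 : ℤ) ≤ x := by exact_mod_cast h1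
      have hx1 : x < (X : ℤ) + 1 := by exact_mod_cast h2
      have hne : x ≠ 0 := by rintro rfl; exact absurd h3 (by decide)
      refine ⟨by omega, by omega, h3.neg, ?_, (h x (by omega) h3).1 h4⟩
      have e : -x - c = -(1 * x - -c) := by ring
      rw [e]
      exact (dvd_neg).2 h5
  rw [e, Set.ncard_image_of_injective _ neg_injective, Set.ncard_coe_finset]

theorem G_empty {S : Set ℤ} (h : ∀ x : ℤ, 0 < x → x ∉ S) (X : ℝ) : G S X = 0 := by
  unfold G
  rw [Finset.card_eq_zero.2, Nat.cast_zero]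
  rw [Finset.eq_empty_iff_forall_notMem]
  intro x hx
  rw [mem_pos] at hx
  exact h x hx.1.1 hx.2

theorem HD_zero {S : Set ℤ} (h : ∀ x : ℤ, x < 0 → x ∉ S) {l : ℝ} (hl : HD (-1) S l) : l = 0 := by
  unfold HD at hl
  have h1 : (fun X : ℝ => G {x | -1 * x ∈ S} X / X) = fun _ => (0 : ℝ) := by
    funext X
    rw [G_empty _ X, zero_div]
    intro x hx hxS
    exact h (-1 * x) (by omega) hxS
  rw [h1] at hl
  exact tendsto_nhds_unique hl tendsto_const_nhds

/-- the density of an invariant set of negative odd integers -/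
theorem dens {S : Set ℤ} (hS : Invariant S) : ∃ δ : ℝ, 0 ≤ δ ∧ δ ≤ 1 ∧ HD (-1) (Lift S) δ ∧
    (δ = 0 ↔ ∀ N : ℤ, N < 0 → Odd N → N ∉ S) ∧ (δ = 1 ↔ ∀ N : ℤ, N < 0 → Odd N → N ∈ S) := by
  obtain ⟨δ, h0, h1, hd⟩ := dens_side odd_one isCoprime_one_left (s := -1) (Or.inr rfl) (lift_inv hS)
  refine ⟨δ, h0, h1, hd, ⟨?_, ?_⟩, ⟨?_, ?_⟩⟩
  · intro hd0 N hN hodd hNS
    have := one_pos (s := -1) (Or.inr rfl) (lift_inv hS)
      ((lift_odd (Int.odd_iff.1 hodd) hN).2 hNS) (by omega) hd
    linarith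
  · intro h
    refine HD_zero ?_ hd
    rintro x hx ⟨_, m, hm, h2, e, he⟩
    refine h m ?_ (Int.odd_iff.2 h2) hm
    by_contra hcon
    push Not at hcon
    have : 0 ≤ (2 : ℤ) ^ e * m := by positivity
    omega
  · intro hd1 N hN hodd
    by_contra hNS
    have := one_lt (s := -1) (Or.inr rfl) (lift_inv hS)
      (fun h => hNS ((lift_odd (Int.odd_iff.1 hodd) hN).1 h)) (by omega) hd
    linarith
  · intro h
    obtain ⟨l', _, _, hl'⟩ := dens_side odd_one isCoprime_one_left (s := -1) (Or.inr rfl) (lift_inv hS).compl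
    have h3 := HD_compl hd hl'
    have h4 : l' = 0 := by
      refine HD_zero ?_ hl'
      intro x hx hxL
      apply hxL
      obtain ⟨v, M, h5, h6⟩ := exists_pow _ x (by omega) le_rfl
      have hM : M < 0 := by
        by_contra hcon
        push Not at hcon
        have : 0 ≤ (2 : ℤ) ^ v * M := by positivity
        omega
      exact ⟨hx, M, h M hM (Int.odd_iff.2 h6), h6, v, h5⟩
    linarith

/-- THE BLOCK LAW FOR THE EXPONENTS. Every set `S` of negative odd integers invariant under the Syracuse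
map has a density `δ` among the negative odd integers, which is positive unless `S` is empty and smaller
than `1` unless `S` contains all of them, and for all `κ, ε > 0` and all large `X`, all `r`, all
admissible blocks, all sets `E` of vectors, all `m` with `m ^ 2 ≤ log X / 4` and all classes `c` mod
`3 ^ m`, the number of the odd `-X ≤ N < 0` in `S` with `N ≡ c` mod `3 ^ m` whose vector of sums of the
exponents in the blocks is in `E` is `δ * prob K r E * X / (2 * 3 ^ m)` up to `ε * X / (2 * 3 ^ m)`. -/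
theorem result (S : Set ℤ) (hS : Invariant S) :
    ∃ δ : ℝ, 0 ≤ δ ∧ δ ≤ 1 ∧ (δ = 0 ↔ ∀ N : ℤ, N < 0 → Odd N → N ∉ S) ∧
      (δ = 1 ↔ ∀ N : ℤ, N < 0 → Odd N → N ∈ S) ∧
      ∀ κ ε : ℝ, 0 < κ → 0 < ε → ∃ X₀ : ℕ, ∀ X : ℕ, X₀ ≤ X → ∀ (r : ℕ) (K : ℕ → ℕ), Admissible κ X r K →
        ∀ E : Set (Fin r → ℕ), ∀ (m : ℕ) (c : ℤ), (m : ℝ) ^ 2 ≤ Real.log X / 4 →
          |negCount X m c (fun N => N ∈ S ∧ blocks K r (val N) ∈ E) -
            δ * prob K r E * (X / (2 * 3 ^ m))| ≤ ε * (X / (2 * 3 ^ m)) := by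
  have hprob : ∀ (K : ℕ → ℕ) (r : ℕ) (E : Set (Fin r → ℕ)), K 0 = 0 → (∀ i < r, K i ≤ K (i + 1)) →
      TJ.PP.real {ω : ℕ → ℕ | EL E (stf (List.ofFn fun i : Fin r => K (i + 1) - K i) fun j => ω j + 1)}
        = prob K r E := by
    intro K r E h0 hK
    unfold prob
    rw [model_eq]
    congr 1
    ext ω
    exact EL_iff h0 hK E _
  have hmeas : ∀ (K : ℕ → ℕ) (r : ℕ) (E : Set (Fin r → ℕ)), K 0 = 0 → (∀ i < r, K i ≤ K (i + 1)) →
      MeasurableSet {ω : ℕ → ℕ |
        EL E (stf (List.ofFn fun i : Fin r => K (i + 1) - K i) fun j => ω j + 1)} := by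
    intro K r E h0 hK
    have e : {ω : ℕ → ℕ | EL E (stf (List.ofFn fun i : Fin r => K (i + 1) - K i) fun j => ω j + 1)} =
        {ω : ℕ → ℕ | blocks K r (fun j => ω j + 1) ∈ E} := by
      ext ω
      exact EL_iff h0 hK E _
    rw [e]
    exact meas_blocks K r E
  obtain ⟨δ, h0, h1, h2, h3, h4⟩ := dens hS
  refine ⟨δ, h0, h1, h3, h4, ?_⟩
  intro κ ε hκ hε
  have hodd1 : Odd (-1 : ℤ) := by decide
  have hcop1 : IsCoprime (-1 : ℤ) 3 := by
    rw [Int.isCoprime_iff_gcd_eq_one]; decide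
  have hSi : Inv (-1) {x : ℤ | -1 * x ∈ Lift S} := by
    have := side_inv odd_one (s := -1) (Or.inr rfl) (lift_inv hS)
    simpa only [mul_one] using this
  have hG : Tendsto (fun X : ℝ => G {x : ℤ | -1 * x ∈ Lift S} X / X) atTop (𝓝 δ) := h2
  rcases le_or_gt κ 1 with hκ1 | hκ1
  · obtain ⟨N0, hN0⟩ := law_cls hodd1 hcop1 hSi h0 h1 hG hκ hκ1 hε
    refine ⟨max N0 2, fun X hX r K hA E m c hm => ?_⟩
    obtain ⟨_, a2, a3, a4, a5⟩ := adm_of hκ ((le_max_right _ _).trans hX) hA
    have h := hN0 X ((le_max_left _ _).trans hX) (List.ofFn fun i : Fin r => K (i + 1) - K i) a3 a4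
      (EL E) (hmeas K r E hA.1 a2) m 1 (-c) hm isCoprime_one_left
    rw [hprob K r E hA.1 a2] at h
    rw [count_cls (Z := ZE (-1) {x : ℤ | -1 * x ∈ Lift S} (List.ofFn fun i : Fin r => K (i + 1) - K i)
      (EL E))]
    · exact h
    · intro x hx hxo
      unfold ZE
      rw [Set.mem_ofPred_eq, ZE_inv hodd1 hcop1 hSi hxo]
      have e1 : (fun j => ex (-1) ((Sy (-1))^[j] x)) = val (-x) := by
        have := val_neg (-x)
        rwa [neg_neg] at this
      rw [e1, EL_iff hA.1 a2]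
      have hxo' : (-x) % 2 = 1 := Int.odd_iff.1 hxo.neg
      have e2 : x ∈ {x : ℤ | -1 * x ∈ Lift S} ↔ -x ∈ S := by
        rw [Set.mem_ofPred_eq, show -1 * x = -x by ring]
        exact lift_odd hxo' (by omega)
      rw [e2]
  · refine ⟨2, fun X hX r K hA E m c hm => ?_⟩
    exact absurd (adm_of hκ hX hA).1 (not_le.2 hκ1)

end Pool.Agent.Results.MP_005f52_nt.ExponentBlocks
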