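import Mathlib
import Pool.Agent.TH932.S2.All
import Pool.Agent.TH932.S2.F.Fin

set_option autoImplicit false

/-!
# Syracuse orbits whose sequence of exponents has linear block complexity
-/

namespace Pool.Agent.Results.MP_005f52_nt.LinearComplexityExponents

open Filter Topology Pool.Agent.TH932.Words Pool.Agent.TH932.S2
open Pool.Agent.TH932.S2.F

/-- the Syracuse map `m ↦ (3 m + 1) / 2 ^ v₂(3 m + 1)` -/
def Syr (m : ℤ) : ℤ := (3 * m + 1) / 2 ^ padicValInt 2 (3 * m + 1)

/-- the exponents: `expo n i` is `x_(i+1) = v₂(3 Syr^i(n) + 1)` -/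
def expo (n : ℤ) (i : ℕ) : ℕ := padicValInt 2 (3 * Syr^[i] n + 1)

/-- the set of blocks of `m` consecutive terms of the whole sequence of exponents of `n` -/
def blockSet (n : ℤ) (m : ℕ) : Set (Fin m → ℕ) :=
  Set.range (fun i : ℕ => fun j : Fin m => expo n (i + j))

/-- the number of different blocks of `m` consecutive terms among the first `H` exponents -/
noncomputable def blocksUpTo (n : ℤ) (H m : ℕ) : ℕ :=
  ((fun i : ℕ => fun j : Fin m => expo n (i + j)) '' {i | i + m ≤ H}).ncard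

/-! ## the shortened map -/

/-- the shortened map -/
def G (y : ℤ) : ℤ := if y % 2 = 0 then y / 2 else (3 * y + 1) / 2

lemma syr_spec {y : ℤ} (hy : y % 2 = 1) :
    (Syr y) % 2 = 1 ∧ 3 * y + 1 = 2 ^ padicValInt 2 (3 * y + 1) * Syr y ∧
      1 ≤ padicValInt 2 (3 * y + 1) := by
  have h0 : 3 * y + 1 ≠ 0 := by omega
  have h1 : (2 : ℤ) ^ padicValInt 2 (3 * y + 1) ∣ 3 * y + 1 := by
    have := (padicValInt_dvd_iff (p := 2) (padicValInt 2 (3 * y + 1)) (3 * y + 1)).2 (Or.inr le_rfl)
    exact_mod_cast this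
  have h2 : ¬ (2 : ℤ) ^ (padicValInt 2 (3 * y + 1) + 1) ∣ 3 * y + 1 := by
    intro h
    have := (padicValInt_dvd_iff (p := 2) (padicValInt 2 (3 * y + 1) + 1) (3 * y + 1)).1
      (by exact_mod_cast h)
    rcases this with h3 | h3
    · exact h0 h3
    · omega
  have h3 : 3 * y + 1 = 2 ^ padicValInt 2 (3 * y + 1) * Syr y := by
    unfold Syr
    exact (Int.mul_ediv_cancel' h1).symm
  have h4 : 1 ≤ padicValInt 2 (3 * y + 1) := by
    by_contra h
    have h5 : padicValInt 2 (3 * y + 1) = 0 := by omega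
    apply h2
    rw [h5]
    norm_num
    omega
  refine ⟨?_, h3, h4⟩
  rcases Int.emod_two_eq_zero_or_one (Syr y) with h5 | h5
  · exfalso
    obtain ⟨c, hc⟩ := Int.dvd_of_emod_eq_zero h5
    apply h2
    refine ⟨c, ?_⟩
    calc 3 * y + 1 = 2 ^ padicValInt 2 (3 * y + 1) * Syr y := h3
      _ = 2 ^ padicValInt 2 (3 * y + 1) * (2 * c) := by rw [hc]
      _ = 2 ^ (padicValInt 2 (3 * y + 1) + 1) * c := by ring
  · exact h5

lemma G_iter_odd {y : ℤ} (hy : y % 2 = 1) (j : ℕ) (hj : j + 1 ≤ padicValInt 2 (3 * y + 1)) :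
    G^[j + 1] y = 2 ^ (padicValInt 2 (3 * y + 1) - (j + 1)) * Syr y := by
  obtain ⟨_, h3, _⟩ := syr_spec hy
  set e := padicValInt 2 (3 * y + 1) with he
  induction j with
  | zero =>
    have h4 : (2 : ℤ) ^ e = 2 * 2 ^ (e - 1) := by
      rw [← pow_succ']
      congr 1
      omega
    rw [h4] at h3
    simp only [zero_add, Function.iterate_one]
    rw [G, if_neg (by omega), h3, mul_assoc]
    exact Int.mul_ediv_cancel_left _ (by norm_num)
  | succ j ih =>
    have h4 : (2 : ℤ) ^ (e - (j + 1)) = 2 * 2 ^ (e - (j + 1 + 1)) := by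
      rw [← pow_succ']
      congr 1
      omega
    rw [Function.iterate_succ_apply', ih (by omega), h4, mul_assoc, G, if_pos (by simp)]
    exact Int.mul_ediv_cancel_left _ (by norm_num)

lemma iter_odd {n : ℤ} (hn : n % 2 = 1) (i : ℕ) : (Syr^[i] n) % 2 = 1 := by
  induction i with
  | zero => exact hn
  | succ i ih =>
    rw [Function.iterate_succ_apply']
    exact (syr_spec ih).1

lemma expo_pos {n : ℤ} (hn : n % 2 = 1) (i : ℕ) : 1 ≤ expo n i := (syr_spec (iter_odd hn i)).2.2

/-- times of the odd terms of the shortened trajectory -/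
def tm (n : ℤ) : ℕ → ℕ
  | 0 => 0
  | i + 1 => tm n i + expo n i

lemma tm_lt {n : ℤ} (hn : n % 2 = 1) (i : ℕ) : tm n i < tm n (i + 1) := by
  have := expo_pos hn i
  rw [tm]
  omega

lemma tm_add {n : ℤ} (hn : n % 2 = 1) (i j : ℕ) : tm n i + j ≤ tm n (i + j) := by
  induction j with
  | zero => exact le_rfl
  | succ j ih =>
    have := tm_lt hn (i + j)
    rw [← add_assoc, ← add_assoc]
    omega

lemma tm_ge {n : ℤ} (hn : n % 2 = 1) (i : ℕ) : i ≤ tm n i := by
  have := tm_add hn 0 i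
  simp only [tm, zero_add] at this
  exact this

lemma G_tm {n : ℤ} (hn : n % 2 = 1) (i : ℕ) : G^[tm n i] n = Syr^[i] n := by
  induction i with
  | zero => rfl
  | succ i ih =>
    have h1 := expo_pos hn i
    obtain ⟨e, he⟩ : ∃ e, expo n i = e + 1 := ⟨expo n i - 1, by omega⟩
    have he' : padicValInt 2 (3 * Syr^[i] n + 1) = e + 1 := he
    rw [tm, he, add_comm, Function.iterate_add_apply, ih,
      G_iter_odd (iter_odd hn i) e (by omega), he', Function.iterate_succ_apply']
    simp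

lemma G_between {n : ℤ} (hn : n % 2 = 1) (i b : ℕ) (hb : 1 ≤ b) (hb' : b < expo n i) :
    (G^[tm n i + b] n) % 2 = 0 := by
  obtain ⟨b', rfl⟩ : ∃ b', b = b' + 1 := ⟨b - 1, by omega⟩
  have he' : expo n i = padicValInt 2 (3 * Syr^[i] n + 1) := rfl
  rw [he'] at hb'
  rw [add_comm, Function.iterate_add_apply, G_tm hn, G_iter_odd (iter_odd hn i) b' (by omega)]
  obtain ⟨c, hc⟩ : ∃ c, padicValInt 2 (3 * Syr^[i] n + 1) - (b' + 1) = c + 1 :=
    ⟨padicValInt 2 (3 * Syr^[i] n + 1) - (b' + 1) - 1, by omega⟩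
  rw [hc, pow_succ]
  have : (2 : ℤ) ^ c * 2 * Syr (Syr^[i] n) = 2 * (2 ^ c * Syr (Syr^[i] n)) := by ring
  rw [this]
  omega

/-- exponents -/
def dl (a : ZMod 2) : ℕ := if a = 1 then 1 else 0

/-- the affine maps -/
def T : Dt (ZMod 2) where
  p := 2
  q := 3
  M := 3
  δ := dl
  β := fun a => (dl a : ℤ)
  hp := le_rfl
  hq := by norm_num
  hpq := by norm_num [Int.isCoprime_iff_gcd_eq_one]
  hpM := by norm_num
  hqM := by intro a; unfold dl; split_ifs <;> norm_num
  hβM := by intro a; unfold dl; split_ifs <;> norm_num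

/-- parities -/
def f (y : ℤ) : ZMod 2 := ((y : ℤ) : ZMod 2)

lemma par_odd {a : ℤ} : ((a : ℤ) : ZMod 2) = 1 ↔ a % 2 = 1 := by
  have h1 : (1 : ZMod 2) = ((1 : ℤ) : ZMod 2) := by simp
  rw [h1, ZMod.intCast_eq_intCast_iff, Int.ModEq]
  norm_num

lemma mp : Mp T 1 f G where
  hd := isCoprime_one_left
  hG := by
    intro y
    change ((2 : ℕ) : ℤ) * G y = ((3 : ℕ) : ℤ) ^ dl (f y) * y + 1 * (dl (f y) : ℤ)
    rcases Int.emod_two_eq_zero_or_one y with h1 | h1
    · have hw : dl (f y) = 0 := by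
        unfold dl
        rw [if_neg]
        unfold f
        rw [par_odd]; omega
      rw [hw, G, if_pos h1]
      push_cast
      omega
    · have hw : dl (f y) = 1 := by
        unfold dl
        rw [if_pos]
        unfold f
        rw [par_odd]; exact h1
      rw [hw, G, if_neg (by omega)]
      push_cast
      omega

/-! ## the number of the odd term -/

/-- the number of the last odd term up to time `k` -/
def ix (n : ℤ) (k : ℕ) : ℕ := Nat.findGreatest (fun i => tm n i ≤ k) k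

lemma ix_le (n : ℤ) (k : ℕ) : ix n k ≤ k := Nat.findGreatest_le k

lemma tm_ix_le (n : ℤ) (k : ℕ) : tm n (ix n k) ≤ k :=
  Nat.findGreatest_spec (P := fun i => tm n i ≤ k) (Nat.zero_le k) (Nat.zero_le _)

lemma lt_tm_ix {n : ℤ} (hn : n % 2 = 1) (k : ℕ) : k < tm n (ix n k + 1) := by
  by_contra h
  push Not at h
  have h1 := tm_ge hn (ix n k + 1)
  have h2 : ix n k + 1 ≤ ix n k :=
    Nat.le_findGreatest (P := fun i => tm n i ≤ k) (h1.trans h) h
  omega

lemma off_lt {n : ℤ} (hn : n % 2 = 1) (k : ℕ) : k - tm n (ix n k) < expo n (ix n k) := by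
  have h1 := lt_tm_ix hn k
  have h2 := tm_ix_le n k
  rw [tm] at h1
  omega

/-- positions in two occurrences of the same block of exponents -/
lemma pos_eq {n : ℤ} (hn : n % 2 = 1) {m i i' : ℕ} (h : Eqv (expo n) m i i') (p : ℕ)
    (hp : tm n i + p < tm n (i + m)) :
    ∃ a b, a < m ∧ b < expo n (i + a) ∧ tm n i + p = tm n (i + a) + b ∧
      tm n i' + p = tm n (i' + a) + b := by
  induction p with
  | zero =>
    have hm : 0 < m := by
      rcases Nat.eq_zero_or_pos m with h0 | h0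
      · rw [h0] at hp; simp at hp
      · exact h0
    exact ⟨0, 0, hm, expo_pos hn _, rfl, rfl⟩
  | succ p ih =>
    obtain ⟨a, b, ha, hb, h1, h2⟩ := ih (by omega)
    by_cases hb' : b + 1 < expo n (i + a)
    · exact ⟨a, b + 1, ha, hb', by omega, by omega⟩
    · have h3 : b + 1 = expo n (i + a) := by omega
      have h4 : expo n (i + a) = expo n (i' + a) := h a ha
      have h5 : tm n (i + (a + 1)) = tm n (i + a) + expo n (i + a) := by
        rw [← add_assoc, tm]
      have h6 : tm n (i' + (a + 1)) = tm n (i' + a) + expo n (i' + a) := by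
        rw [← add_assoc, tm]
      have ha' : a + 1 < m := by
        rcases Nat.lt_or_ge (a + 1) m with h7 | h7
        · exact h7
        · exfalso
          have h8 : a + 1 = m := by omega
          rw [← h8] at hp
          omega
      exact ⟨a + 1, 0, ha', expo_pos hn _, by omega, by omega⟩

lemma decode {n : ℤ} (hn : n % 2 = 1) {m k k' : ℕ}
    (hr : k - tm n (ix n k) = k' - tm n (ix n k'))
    (h : Eqv (expo n) m (ix n k) (ix n k')) : Eqv (wd f G n) m k k' := by
  intro s hs
  have h1 := tm_ix_le n k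
  have h1' := tm_ix_le n k'
  have h2 := lt_tm_ix hn k
  have h3 : tm n (ix n k + 1) + (m - 1) ≤ tm n (ix n k + 1 + (m - 1)) := tm_add hn _ _
  have h4 : ix n k + 1 + (m - 1) = ix n k + m := by omega
  rw [h4] at h3
  obtain ⟨a, b, ha, hb, e1, e2⟩ := pos_eq hn h (k - tm n (ix n k) + s) (by omega)
  have e1' : k + s = tm n (ix n k + a) + b := by omega
  have e2' : k' + s = tm n (ix n k' + a) + b := by omega
  have h5 : expo n (ix n k + a) = expo n (ix n k' + a) := h a ha
  change f (G^[k + s] n) = f (G^[k' + s] n)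
  rw [e1', e2']
  rcases Nat.eq_zero_or_pos b with h0 | h0
  · rw [h0, add_zero, add_zero, G_tm hn, G_tm hn]
    unfold f
    rw [par_odd.2 (iter_odd hn _), par_odd.2 (iter_odd hn _)]
  · have g1 := G_between hn (ix n k + a) b h0 hb
    have g2 := G_between hn (ix n k' + a) b h0 (by omega)
    unfold f
    rw [ZMod.intCast_eq_intCast_iff, Int.ModEq]
    push_cast
    omega

/-- counting factors -/
lemma wc_le_of_dep {α β : Type*} {w : ℕ → α} {u : ℕ → β} {n m H H' E : ℕ} (φ ρ : ℕ → ℕ)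
    (hφ : ∀ i, i + n ≤ H → φ i + m ≤ H') (hρ : ∀ i, i + n ≤ H → ρ i < E)
    (h : ∀ i j, ρ i = ρ j → Eqv u m (φ i) (φ j) → Eqv w n i j) :
    wc w H n ≤ E * wc u H' m := by
  classical
  set S : Set (Fin n → α) := (fun i => fac w n i) '' {i | i + n ≤ H} with hS
  set U : Set (Fin m → β) := (fun i => fac u m i) '' {i | i + m ≤ H'} with hU
  have hfin : ∀ (a b : ℕ), {i : ℕ | i + a ≤ b}.Finite := fun a b =>
    (Set.finite_Iic b).subset (fun i hi => by
      have : i + a ≤ b := hi
      exact Set.mem_Iic.2 (by omega))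
  have hUf : U.Finite := (hfin m H').image _
  have hch : ∀ v ∈ S, ∃ i, i + n ≤ H ∧ fac w n i = v := by
    rintro v ⟨i, hi, rfl⟩
    exact ⟨i, hi, rfl⟩
  choose! ι hι1 hι2 using hch
  have h1 : S.ncard ≤ ((Set.Iio E) ×ˢ U : Set (ℕ × (Fin m → β))).ncard := by
    refine Set.ncard_le_ncard_of_injOn (fun v => (ρ (ι v), fac u m (φ (ι v)))) ?_ ?_
      ((Set.finite_Iio E).prod hUf)
    · intro v hv
      refine ⟨hρ _ (hι1 v hv), ⟨φ (ι v), hφ _ (hι1 v hv), rfl⟩⟩
    · intro v hv v' hv' he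
      simp only [Prod.mk.injEq] at he
      rw [← hι2 v hv, ← hι2 v' hv']
      exact fac_eq.2 (h _ _ he.1 (fac_eq.1 he.2))
  rw [Set.ncard_prod] at h1
  have h2 : (Set.Iio E : Set ℕ).ncard = E := by
    rw [← Nat.card_coe_set_eq, Nat.card_eq_fintype_card]
    simp
  rw [h2] at h1
  exact h1

/-- if a term of the trajectory of the odd integer `y` is odd then it belongs to the Syracuse
orbit -/
lemma odd_time {y : ℤ} (hy : y % 2 = 1) {p : ℕ} (hp : (G^[p] y) % 2 = 1) :
    ∃ k ≤ p, tm y k = p := by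
  refine ⟨ix y p, ix_le y p, ?_⟩
  have h1 := tm_ix_le y p
  have h2 := off_lt hy p
  by_contra h
  have h3 := G_between hy (ix y p) (p - tm y (ix y p)) (by omega) h2
  have h4 : tm y (ix y p) + (p - tm y (ix y p)) = p := by omega
  rw [h4] at h3
  omega

lemma quant (A : ℝ) (E : ℕ) : ∃ K : ℕ, ∀ (n : ℤ) (M N : ℕ), n % 2 = 1 → 1 ≤ M → M ≤ N →
    |n| ≤ 2 ^ N → (∀ i < K * N, expo n i ≤ E) →
    (∀ m : ℕ, M ≤ m → m ≤ K * N → (blocksUpTo n (K * N) m : ℝ) ≤ A * m) →
    ∃ i ≤ K * N, (∃ k, 1 ≤ k ∧ k ≤ K * M ∧ Syr^[k] (Syr^[i] n) = Syr^[i] n) ∧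
      ∀ j, |Syr^[j] (Syr^[i] n)| ≤ 2 ^ (K * M) := by
  obtain ⟨K, hK, h⟩ := enter bd_thm su_thm kp_thm T (E * A)
  refine ⟨2 * K, fun n M N hn hM hMN hx hE hcx => ?_⟩
  have hKN : K * N ≤ 2 * K * N := by
    have : 2 * K * N = K * N + K * N := by ring
    omega
  have hKM : K * M ≤ 2 * K * M := by
    have : 2 * K * M = K * M + K * M := by ring
    omega
  obtain ⟨i, hi, hz, hper, habs⟩ := h 1 f G mp n M N hM hMN (by
      simp only [Int.cast_one, abs_one]
      exact Real.one_le_exp (by positivity)) (by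
      have h1 : |(n : ℝ)| ≤ 2 ^ N := by exact_mod_cast hx
      refine h1.trans ?_
      have h2 : (2 : ℝ) ≤ Real.exp 1 := by
        have := Real.add_one_le_exp (1 : ℝ)
        linarith
      calc (2 : ℝ) ^ N ≤ Real.exp 1 ^ N := by gcongr
        _ = Real.exp N := by rw [← Real.exp_nat_mul, mul_one]) (by
      intro m hm1 hm2
      have h1 : wc (wd f G n) (K * N) m ≤ E * blocksUpTo n (2 * K * N) m := by
        refine wc_le_of_dep (u := expo n) (ix n) (fun k => k - tm n (ix n k)) (fun i hi => ?_)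
          (fun i hi => ?_) (fun i j hr hij => decode hn hr hij)
        · have := ix_le n i
          omega
        · have h2 := ix_le n i
          have h3 := off_lt hn i
          have h4 := hE (ix n i) (by omega)
          omega
      have h2 := hcx m hm1 (by omega)
      have h3 : (wc (wd f G n) (K * N) m : ℝ) ≤ E * blocksUpTo n (2 * K * N) m := by
        exact_mod_cast h1
      calc (wc (wd f G n) (K * N) m : ℝ) ≤ E * blocksUpTo n (2 * K * N) m := h3
        _ ≤ E * (A * m) := by gcongr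
        _ = E * A * m := by ring)
  simp only [Int.cast_one, abs_one, Real.log_one, zero_add] at hper habs
  set z := G^[i] n with hzd
  set π := Function.minimalPeriod G z with hπ
  have hπ1 : 1 ≤ π := Function.minimalPeriod_pos_of_mem_periodicPts hz
  have hπK : π ≤ K * M := by exact_mod_cast hper
  have hzπ : G^[π] z = z := Function.iterate_minimalPeriod
  -- the first odd term from time `i` on
  have hex : ∃ i', i ≤ tm n i' := ⟨i, tm_ge hn i⟩
  set i' := Nat.find hex with hi'
  have hi'1 : i ≤ tm n i' := Nat.find_spec hex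
  have hi'2 : i' ≤ i := Nat.find_min' hex (tm_ge hn i)
  have hy : Syr^[i'] n = G^[tm n i' - i] z := by
    rw [← G_tm hn, hzd, ← Function.iterate_add_apply]
    congr 1
    omega
  set y := Syr^[i'] n with hyd
  have hyo : y % 2 = 1 := iter_odd hn i'
  have hyπ : G^[π] y = y := by
    rw [hy, ← Function.iterate_add_apply, add_comm, Function.iterate_add_apply, hzπ]
  refine ⟨i', by omega, ?_, ?_⟩
  · obtain ⟨k, hk1, hk2⟩ := odd_time hyo (p := π) (by rw [hyπ]; exact hyo)
    refine ⟨k, ?_, by omega, ?_⟩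
    · rcases Nat.eq_zero_or_pos k with h0 | h0
      · rw [h0, tm] at hk2
        omega
      · exact h0
    · rw [← G_tm hyo, hk2, hyπ]
  · intro j
    have e1 : Syr^[j] y = G^[tm y j + (tm n i' - i)] z := by
      rw [← G_tm hyo, Function.iterate_add_apply, ← hy]
    rw [e1]
    have h1 := habs (tm y j + (tm n i' - i))
    have h2 : Real.exp ((K : ℝ) * M) ≤ ((2 ^ (2 * K * M) : ℕ) : ℝ) := by
      have h3 : Real.exp 1 ≤ 4 := by
        have := Real.exp_one_lt_d9
        linarith
      calc Real.exp ((K : ℝ) * M) = Real.exp 1 ^ (K * M) := by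
            rw [← Real.exp_nat_mul]; push_cast; ring_nf
        _ ≤ 4 ^ (K * M) := by gcongr
        _ = ((2 ^ (2 * K * M) : ℕ) : ℝ) := by
            rw [mul_assoc, pow_mul 2 2 (K * M)]; norm_num
    exact_mod_cast h1.trans h2

/-- **Result.**
(1) For all `A` and `E` there is `K` such that, for all odd integers `n` and `1 ≤ M ≤ N` with
`|n| ≤ 2 ^ N`: if the first `K N` exponents are at most `E` and for `M ≤ m ≤ K N` there are at
most `A m` different blocks of `m` consecutive exponents among them, then the orbit of `n` under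
the Syracuse map reaches, after at most `K N` steps, a cycle of length at most `K M` whose
elements have absolute value at most `2 ^ (K M)`.
(2) If `n` is an odd integer and for some `A` and `M` the sequence of exponents of `n` has, for
all `m ≥ M`, at most `A m` different blocks of length `m`, then the orbit of `n` is eventually
periodic. -/
theorem result :
    (∀ (A : ℝ) (E : ℕ), ∃ K : ℕ, ∀ (n : ℤ) (M N : ℕ), Odd n → 1 ≤ M → M ≤ N →
      |n| ≤ 2 ^ N → (∀ i < K * N, expo n i ≤ E) →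
      (∀ m : ℕ, M ≤ m → m ≤ K * N → (blocksUpTo n (K * N) m : ℝ) ≤ A * m) →
      ∃ i ≤ K * N, (∃ k, 1 ≤ k ∧ k ≤ K * M ∧ Syr^[k] (Syr^[i] n) = Syr^[i] n) ∧
        ∀ j, |Syr^[j] (Syr^[i] n)| ≤ 2 ^ (K * M)) ∧
    (∀ n : ℤ, Odd n → (∃ A M : ℕ, ∀ m ≥ M, (blockSet n m).encard ≤ ((A * m : ℕ) : ℕ∞)) →
      ∃ i k, 1 ≤ k ∧ Syr^[k] (Syr^[i] n) = Syr^[i] n) := by
  refine ⟨fun A E => ?_, fun n hn hA => ?_⟩
  · obtain ⟨K, hK⟩ := quant A E
    exact ⟨K, fun n M N hn => hK n M N (Int.odd_iff.1 hn)⟩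
  · obtain ⟨A, M, hAM⟩ := hA
    have hn' := Int.odd_iff.1 hn
    have hfin : (blockSet n (M + 1)).Finite := by
      rw [← Set.encard_lt_top_iff]
      exact (hAM (M + 1) (by omega)).trans_lt (ENat.natCast_lt_top _)
    obtain ⟨E, hE⟩ : ∃ E, ∀ i, expo n i ≤ E := by
      have h1 : (Set.range (expo n)).Finite := by
        refine (hfin.image (fun v => v 0)).subset ?_
        rintro _ ⟨i, rfl⟩
        exact ⟨_, ⟨i, rfl⟩, by simp⟩
      obtain ⟨E, hE⟩ := h1.bddAbove
      exact ⟨E, fun i => hE ⟨i, rfl⟩⟩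
    obtain ⟨K, hK⟩ := quant A E
    obtain ⟨N, hN1, hN2⟩ : ∃ N : ℕ, M + 1 ≤ N ∧ |n| ≤ 2 ^ N := by
      refine ⟨M + 1 + n.natAbs, by omega, ?_⟩
      have h1 : n.natAbs < 2 ^ n.natAbs := Nat.lt_two_pow_self
      have h2 : 2 ^ n.natAbs ≤ 2 ^ (M + 1 + n.natAbs) :=
        Nat.pow_le_pow_right (by norm_num) (by omega)
      rw [Int.abs_eq_natAbs]
      exact_mod_cast (h1.le.trans h2)
    obtain ⟨i, _, ⟨k, hk1, _, hk2⟩, _⟩ := hK n (M + 1) N hn' (by omega) hN1 hN2
      (fun i _ => hE i) (fun m hm1 _ => by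
        have h1 := hAM m (by omega)
        have h2 : blocksUpTo n (K * N) m ≤ A * m := by
          have h3 : (((fun i : ℕ => fun j : Fin m => expo n (i + j)) '' {i | i + m ≤ K * N}).encard)
              ≤ ((A * m : ℕ) : ℕ∞) := (Set.encard_le_encard (Set.image_subset_range _ _)).trans h1
          have h4 : ((fun i : ℕ => fun j : Fin m => expo n (i + j)) '' {i | i + m ≤ K * N}).Finite :=
            Set.finite_of_encard_le_coe h3
          rw [← h4.cast_ncard_eq] at h3
          exact_mod_cast h3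
        exact_mod_cast h2)
    exact ⟨i, k, hk1, hk2⟩

end Pool.Agent.Results.MP_005f52_nt.LinearComplexityExponents
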