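import Pool.Agent.TH930.PS.Three

set_option autoImplicit false

/-! The negative odd integers whose Syracuse orbit stays below `-y`: a uniform power saving beyond the
entropy exponent. -/

namespace Pool.Agent.Results.MP_005f52_nt.TailBelowEntropy

/-- The Syracuse map. -/
def Syr (N : ℤ) : ℤ := (3 * N + 1) / 2 ^ padicValInt 2 (3 * N + 1)

/-- the union of the three known periodic orbits -/
def Known : Set ℤ := {-1, -5, -7, -17, -25, -37, -55, -41, -61, -91}

/-- the number of negative odd integers `N ≥ -X` with the property `P` -/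
noncomputable def count (P : ℤ → Prop) (X : ℝ) : ℝ :=
  ({N : ℤ | N < 0 ∧ Odd N ∧ -X ≤ (N : ℝ) ∧ P N}.ncard : ℝ)

theorem syr_spec {N : ℤ} (hN : Odd N) : ∃ v : ℕ, 1 ≤ v ∧ 3 * N + 1 = 2 ^ v * Syr N ∧ Odd (Syr N) := by
  have h0 : 3 * N + 1 ≠ 0 := by omega
  have h2 : (2 : ℤ) ∣ 3 * N + 1 := by
    obtain ⟨t, rfl⟩ := hN
    exact ⟨3 * t + 2, by ring⟩
  set v := padicValInt 2 (3 * N + 1) with hv
  have hd : (2 : ℤ) ^ v ∣ 3 * N + 1 := by
    have := padicValInt_dvd (p := 2) (3 * N + 1)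
    exact_mod_cast this
  have he : 3 * N + 1 = 2 ^ v * Syr N := by
    unfold Syr
    rw [← hv, Int.mul_ediv_cancel' hd]
  have hnd : ¬ (2 : ℤ) ^ (v + 1) ∣ 3 * N + 1 := by
    intro h
    have h3 := (padicValInt_dvd_iff (p := 2) (v + 1) (3 * N + 1)).1 (by exact_mod_cast h)
    rcases h3 with h3 | h3
    · exact h0 h3
    · omega
  refine ⟨v, ?_, he, ?_⟩
  · by_contra hcon
    have hv0 : v = 0 := by omega
    apply hnd
    rw [hv0]
    simpa using h2
  · rw [← Int.not_even_iff_odd]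
    rintro ⟨t, ht⟩
    apply hnd
    exact ⟨t, by rw [he, ht, pow_succ]; ring⟩

/-- the terms of the orbit of an odd integer under `x ↦ x/2`, `(3x+1)/2` -/
theorem orbit_syr {N : ℤ} (hN : Odd N) (j : ℕ) : ∃ k i : ℕ, Odd (Syr^[k] N) ∧
    (Pool.Agent.H499R2.ND.Td 1)^[j] N = 2 ^ i * Syr^[k] N := by
  induction j with
  | zero => exact ⟨0, 0, hN, by simp⟩
  | succ j ih =>
    obtain ⟨k, i, ho, he⟩ := ih
    rw [Function.iterate_succ_apply', he]
    rcases Nat.eq_zero_or_pos i with hi | hi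
    · subst hi
      obtain ⟨v, hv1, hv2, hv3⟩ := syr_spec ho
      refine ⟨k + 1, v - 1, ?_, ?_⟩
      · rw [Function.iterate_succ_apply']; exact hv3
      · rw [Function.iterate_succ_apply', pow_zero, one_mul]
        unfold Pool.Agent.H499R2.ND.Td
        rw [if_neg (by have := Int.odd_iff.1 ho; omega), hv2]
        obtain ⟨w, rfl⟩ := Nat.exists_eq_add_of_le hv1
        rw [Nat.add_sub_cancel_left, pow_add, pow_one, mul_assoc]
        exact Int.mul_ediv_cancel_left _ (by norm_num)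
    · refine ⟨k, i - 1, ho, ?_⟩
      obtain ⟨w, rfl⟩ := Nat.exists_eq_add_of_le hi
      rw [Nat.succ_eq_add_one, zero_add, Nat.add_sub_cancel_left, pow_add, pow_one, mul_assoc]
      unfold Pool.Agent.H499R2.ND.Td
      rw [if_pos (Int.mul_emod_right 2 _)]
      exact Int.mul_ediv_cancel_left _ (by norm_num)

/-- There are `c > 1 - H(log_3 2)`, `H` the binary entropy in bits, and `A` such that for all
`X, y ≥ 1` at most `A X / y^c` of the negative odd integers `N ≥ -X` have a Syracuse orbit all of whose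
terms exceed `y` in absolute value; hence, if the orbits of all negative odd integers `N ≥ -y` enter the
three known periodic orbits, then so do those of all but at most `A X / y^c` of the `N ≥ -X`. -/
theorem result : ∃ c A : ℝ, 1 - Real.binEntropy (Real.log 2 / Real.log 3) / Real.log 2 < c ∧ 0 < A ∧
    ∀ X y : ℝ, 1 ≤ X → 1 ≤ y →
      count (fun N => ∀ k : ℕ, y < |((Syr^[k] N : ℤ) : ℝ)|) X ≤ A * X / y ^ c ∧
      ((∀ N : ℤ, N < 0 → Odd N → -y ≤ (N : ℝ) → ∃ k, Syr^[k] N ∈ Known) →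
        count (fun N => ∀ k : ℕ, Syr^[k] N ∉ Known) X ≤ A * X / y ^ c) := by
  obtain ⟨c, hc, A, hA, h⟩ := Pool.Agent.TH930.PS.three' (k := 1) odd_one
  refine ⟨c, A, hc, hA, fun X y hX hy => ?_⟩
  have hfin : {x : ℤ | |(x : ℝ)| ≤ X ∧
      ∀ n : ℕ, y < |(((Pool.Agent.H499R2.ND.Td 1)^[n] x : ℤ) : ℝ)|}.Finite := by
    apply (Set.finite_Icc (-⌈X⌉) ⌈X⌉).subset
    rintro x ⟨hx, -⟩
    have h1 := abs_le.1 hx
    have h2 := Int.le_ceil X
    rw [Set.mem_Icc]
    constructor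
    · have : (-(⌈X⌉ : ℤ) : ℝ) ≤ x := by linarith
      exact_mod_cast this
    · have : (x : ℝ) ≤ (⌈X⌉ : ℤ) := by linarith
      exact_mod_cast this
  have hfin2 : ∀ P : ℤ → Prop, {N : ℤ | N < 0 ∧ Odd N ∧ -X ≤ (N : ℝ) ∧ P N}.Finite := by
    intro P
    apply (Set.finite_Icc (-⌈X⌉) 0).subset
    rintro x ⟨hx, -, hx2, -⟩
    have h2 := Int.le_ceil X
    rw [Set.mem_Icc]
    constructor
    · have : (-(⌈X⌉ : ℤ) : ℝ) ≤ x := by linarith
      exact_mod_cast this
    · exact hx.le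
  have h1 : count (fun N => ∀ k : ℕ, y < |((Syr^[k] N : ℤ) : ℝ)|) X ≤ A * X / y ^ c := by
    refine le_trans ?_ (h X y hX hy)
    unfold count
    have hsub : {N : ℤ | N < 0 ∧ Odd N ∧ -X ≤ (N : ℝ) ∧ ∀ k : ℕ, y < |((Syr^[k] N : ℤ) : ℝ)|} ⊆
        {x : ℤ | |(x : ℝ)| ≤ X ∧ ∀ n : ℕ, y < |(((Pool.Agent.H499R2.ND.Td 1)^[n] x : ℤ) : ℝ)|} := by
      rintro N ⟨hN0, hNo, hNX, hN⟩
      refine ⟨?_, fun j => ?_⟩
      · have : (N : ℝ) < 0 := by exact_mod_cast hN0
        rw [abs_of_neg this]; linarith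
      · obtain ⟨k, i, ho, he⟩ := orbit_syr hNo j
        rw [he]
        refine (hN k).trans_le ?_
        push_cast
        rw [abs_mul, abs_of_pos (by positivity : (0 : ℝ) < 2 ^ i)]
        exact le_mul_of_one_le_left (abs_nonneg _) (one_le_pow₀ (by norm_num))
    exact_mod_cast Set.ncard_le_ncard hsub hfin
  refine ⟨h1, fun hm => le_trans ?_ h1⟩
  unfold count
  have hneg : ∀ (k : ℕ) (N : ℤ), N < 0 → Odd N → Syr^[k] N < 0 ∧ Odd (Syr^[k] N) := by
    intro k
    induction k with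
    | zero => intro N h1 h2; exact ⟨h1, h2⟩
    | succ k ih =>
      intro N h1 h2
      rw [Function.iterate_succ_apply]
      obtain ⟨v, hv1, hv2, hv3⟩ := syr_spec h2
      apply ih _ _ hv3
      by_contra hcon
      push Not at hcon
      have : 0 ≤ 2 ^ v * Syr N := mul_nonneg (by positivity) hcon
      omega
  have hsub : {N : ℤ | N < 0 ∧ Odd N ∧ -X ≤ (N : ℝ) ∧ ∀ k : ℕ, Syr^[k] N ∉ Known} ⊆
      {N : ℤ | N < 0 ∧ Odd N ∧ -X ≤ (N : ℝ) ∧ ∀ k : ℕ, y < |((Syr^[k] N : ℤ) : ℝ)|} := by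
    rintro N ⟨hN0, hNo, hNX, hN⟩
    refine ⟨hN0, hNo, hNX, fun k => ?_⟩
    by_contra hcon
    push Not at hcon
    obtain ⟨a1, a2⟩ := hneg k N hN0 hNo
    obtain ⟨j, hj⟩ := hm (Syr^[k] N) a1 a2 (by
      have := (abs_le.1 hcon).1
      exact this)
    rw [← Function.iterate_add_apply] at hj
    exact hN _ hj
  exact_mod_cast Set.ncard_le_ncard hsub (hfin2 _)

end Pool.Agent.Results.MP_005f52_nt.TailBelowEntropy
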