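import Pool.Agent.TH237.RT.Odd

set_option autoImplicit false

/-! A rate of convergence to the natural density for all sets of negative odd integers which are
invariant under the Syracuse map, uniform in the set; the basins of the three known cycles and the set
of the possible counterexamples to Q1. -/

namespace Pool.Agent.Results.MP_005f52_nt.UniformRate

open Filter Topology

/-- The Syracuse map. -/
def Syr (N : ℤ) : ℤ := (3 * N + 1) / 2 ^ padicValInt 2 (3 * N + 1)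

/-- `S` contains a negative odd integer `N` if and only if it contains `Syr N`. -/
def Invariant (S : Set ℤ) : Prop := ∀ N : ℤ, N < 0 → Odd N → (N ∈ S ↔ Syr N ∈ S)

/-- the number of the negative odd integers `N ≥ -X` in `S` -/
noncomputable def count (S : Set ℤ) (X : ℝ) : ℝ :=
  ({N : ℤ | N < 0 ∧ Odd N ∧ -X ≤ (N : ℝ) ∧ N ∈ S}.ncard : ℝ)

/-- the three known cycles -/
def C₁ : Finset ℤ := {-1}

/-- the three known cycles -/
def C₂ : Finset ℤ := {-5, -7}

/-- the three known cycles -/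
def C₃ : Finset ℤ := {-17, -25, -37, -55, -41, -61, -91}

/-- the integers whose Syracuse orbit meets `Z` -/
def Basin (Z : Finset ℤ) : Set ℤ := {N : ℤ | ∃ k : ℕ, Syr^[k] N ∈ Z}

/-- the integers whose Syracuse orbit does not meet the three known cycles -/
def Exceptional : Set ℤ := {N : ℤ | ∀ k : ℕ, Syr^[k] N ∉ C₁ ∪ C₂ ∪ C₃}

theorem syr_eq {N M : ℤ} (v : ℕ) (h : 3 * N + 1 = 2 ^ v * M) (hM : M % 2 = 1) : Syr N = M :=
  Pool.Agent.TH237.RT.Sy_eq h hM

theorem s1 : Syr (-1) = -1 := syr_eq 1 (by norm_num) (by norm_num)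
theorem s5 : Syr (-5) = -7 := syr_eq 1 (by norm_num) (by norm_num)
theorem s7 : Syr (-7) = -5 := syr_eq 2 (by norm_num) (by norm_num)
theorem s17 : Syr (-17) = -25 := syr_eq 1 (by norm_num) (by norm_num)
theorem s25 : Syr (-25) = -37 := syr_eq 1 (by norm_num) (by norm_num)
theorem s37 : Syr (-37) = -55 := syr_eq 1 (by norm_num) (by norm_num)
theorem s55 : Syr (-55) = -41 := syr_eq 2 (by norm_num) (by norm_num)
theorem s41 : Syr (-41) = -61 := syr_eq 1 (by norm_num) (by norm_num)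
theorem s61 : Syr (-61) = -91 := syr_eq 1 (by norm_num) (by norm_num)
theorem s91 : Syr (-91) = -17 := syr_eq 4 (by norm_num) (by norm_num)

theorem f1 : ∀ y ∈ C₁, Syr y ∈ C₁ := by
  intro y hy
  simp only [C₁, Finset.mem_singleton] at hy ⊢
  subst hy
  exact s1

theorem f2 : ∀ y ∈ C₂, Syr y ∈ C₂ := by
  intro y hy
  simp only [C₂, Finset.mem_insert, Finset.mem_singleton] at hy ⊢
  rcases hy with rfl | rfl
  · rw [s5]; simp
  · rw [s7]; simp

theorem f3 : ∀ y ∈ C₃, Syr y ∈ C₃ := by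
  intro y hy
  simp only [C₃, Finset.mem_insert, Finset.mem_singleton] at hy ⊢
  rcases hy with rfl | rfl | rfl | rfl | rfl | rfl | rfl
  · rw [s17]; simp
  · rw [s25]; simp
  · rw [s37]; simp
  · rw [s55]; simp
  · rw [s41]; simp
  · rw [s61]; simp
  · rw [s91]; simp

theorem iter_mem {Z : Finset ℤ} (hZ : ∀ y ∈ Z, Syr y ∈ Z) {y : ℤ} (hy : y ∈ Z) (k : ℕ) :
    Syr^[k] y ∈ Z := by
  induction k with
  | zero => exact hy
  | succ k ih => rw [Function.iterate_succ_apply']; exact hZ _ ih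

theorem basin_iff {Z : Finset ℤ} (hZ : ∀ y ∈ Z, Syr y ∈ Z) (N : ℤ) : N ∈ Basin Z ↔ Syr N ∈ Basin Z := by
  constructor
  · rintro ⟨k, hk⟩
    rcases k with _ | k
    · exact ⟨0, hZ N hk⟩
    · exact ⟨k, by rwa [Function.iterate_succ_apply] at hk⟩
  · rintro ⟨k, hk⟩
    exact ⟨k + 1, by rwa [Function.iterate_succ_apply]⟩

theorem basin_disj {Z Z' : Finset ℤ} (hZ : ∀ y ∈ Z, Syr y ∈ Z) (hZ' : ∀ y ∈ Z', Syr y ∈ Z')
    (hd : Disjoint Z Z') : Disjoint (Basin Z) (Basin Z') := by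
  rw [Set.disjoint_left]
  rintro N ⟨k, hk⟩ ⟨j, hj⟩
  have h1 := iter_mem hZ hk j
  have h2 := iter_mem hZ' hj k
  rw [← Function.iterate_add_apply] at h1 h2
  rw [add_comm k j] at h2
  exact Finset.disjoint_left.1 hd h1 h2

theorem exc_eq : Exceptional = (Basin C₁ ∪ Basin C₂ ∪ Basin C₃)ᶜ := by
  ext N
  constructor
  · intro h hc
    rcases hc with (⟨k, hk⟩ | ⟨k, hk⟩) | ⟨k, hk⟩
    · exact h k (Finset.mem_union_left _ (Finset.mem_union_left _ hk))
    · exact h k (Finset.mem_union_left _ (Finset.mem_union_right _ hk))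
    · exact h k (Finset.mem_union_right _ hk)
  · intro h k hk
    apply h
    rcases Finset.mem_union.1 hk with hk | hk
    · rcases Finset.mem_union.1 hk with hk | hk
      · exact Or.inl (Or.inl ⟨k, hk⟩)
      · exact Or.inl (Or.inr ⟨k, hk⟩)
    · exact Or.inr ⟨k, hk⟩

theorem inv_union {A B : Set ℤ} (hA : Invariant A) (hB : Invariant B) : Invariant (A ∪ B) :=
  fun N h1 h2 => or_congr (hA N h1 h2) (hB N h1 h2)

theorem inv_compl {A : Set ℤ} (hA : Invariant A) : Invariant Aᶜ := fun N h1 h2 => not_congr (hA N h1 h2)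

theorem fin (S : Set ℤ) (X : ℝ) : {N : ℤ | N < 0 ∧ Odd N ∧ -X ≤ (N : ℝ) ∧ N ∈ S}.Finite := by
  apply (Set.finite_Icc (-⌈X⌉) 0).subset
  rintro x ⟨hx, -, hx2, -⟩
  have h2 := Int.le_ceil X
  rw [Set.mem_Icc]
  constructor
  · have : (-(⌈X⌉ : ℤ) : ℝ) ≤ x := by linarith
    exact_mod_cast this
  · exact hx.le

theorem count_union {A B : Set ℤ} (h : Disjoint A B) (X : ℝ) :
    count (A ∪ B) X = count A X + count B X := by
  unfold count
  have e : {N : ℤ | N < 0 ∧ Odd N ∧ -X ≤ (N : ℝ) ∧ N ∈ A ∪ B} =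
      {N : ℤ | N < 0 ∧ Odd N ∧ -X ≤ (N : ℝ) ∧ N ∈ A} ∪
        {N : ℤ | N < 0 ∧ Odd N ∧ -X ≤ (N : ℝ) ∧ N ∈ B} := by
    ext N
    constructor
    · rintro ⟨h1, h2, h3, h4 | h4⟩
      · exact Or.inl ⟨h1, h2, h3, h4⟩
      · exact Or.inr ⟨h1, h2, h3, h4⟩
    · rintro (⟨h1, h2, h3, h4⟩ | ⟨h1, h2, h3, h4⟩)
      · exact ⟨h1, h2, h3, Or.inl h4⟩
      · exact ⟨h1, h2, h3, Or.inr h4⟩
  have hd : Disjoint {N : ℤ | N < 0 ∧ Odd N ∧ -X ≤ (N : ℝ) ∧ N ∈ A}
      {N : ℤ | N < 0 ∧ Odd N ∧ -X ≤ (N : ℝ) ∧ N ∈ B} := by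
    rw [Set.disjoint_left]
    rintro N ⟨_, _, _, h4⟩ ⟨_, _, _, h5⟩
    exact Set.disjoint_left.1 h h4 h5
  rw [e, Set.ncard_union_eq hd (fin A X) (fin B X)]
  push_cast
  ring

/-- uniqueness of the density -/
theorem zero_of {D C : ℝ} (h : ∀ X : ℝ, 2 ≤ X → |D * X| ≤ C * X / (Real.log X) ^ (1 / 30 : ℝ)) :
    D = 0 := by
  have hlog : Tendsto (fun X : ℝ => (Real.log X) ^ (1 / 30 : ℝ)) atTop atTop :=
    (tendsto_rpow_atTop (by norm_num)).comp Real.tendsto_log_atTop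
  have h0 : Tendsto (fun X : ℝ => C / (Real.log X) ^ (1 / 30 : ℝ)) atTop (𝓝 0) :=
    Tendsto.div_atTop tendsto_const_nhds hlog
  have h1 : |D| ≤ 0 := by
    apply ge_of_tendsto h0
    filter_upwards [eventually_ge_atTop (2 : ℝ)] with X hX
    have hX0 : 0 < X := by linarith
    have h2 := h X hX
    rw [abs_mul, abs_of_pos hX0] at h2
    have h3 : C * X / (Real.log X) ^ (1 / 30 : ℝ) = C / (Real.log X) ^ (1 / 30 : ℝ) * X := by ring
    rw [h3] at h2
    exact le_of_mul_le_mul_right h2 hX0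
  exact abs_nonpos_iff.1 h1

theorem main : ∃ C : ℝ, 0 < C ∧ ∀ S : Set ℤ, Invariant S → ∃ δ : ℝ, 0 ≤ δ ∧ δ ≤ 1 ∧
      (δ = 0 ↔ ∀ N : ℤ, N < 0 → Odd N → N ∉ S) ∧ (δ = 1 ↔ ∀ N : ℤ, N < 0 → Odd N → N ∈ S) ∧
      ∀ X : ℝ, 2 ≤ X → |count S X - δ / 2 * X| ≤ C * X / (Real.log X) ^ (1 / 30 : ℝ) := by
  obtain ⟨C, hC, h⟩ := Pool.Agent.TH237.RT.odd_rate (s := -1) (Or.inr rfl)
  refine ⟨C, hC, fun S hS => ?_⟩
  obtain ⟨δ, h0, h1, h2, h3, h4⟩ := h S (fun N hN hodd => hS N (by omega) (Int.odd_iff.2 hodd))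
  refine ⟨δ, h0, h1, ?_, ?_, fun X hX => ?_⟩
  · rw [h2]
    constructor
    · intro g N hN hodd; exact g N (by omega) (Int.odd_iff.1 hodd)
    · intro g N hN hodd; exact g N (by omega) (Int.odd_iff.2 hodd)
  · rw [h3]
    constructor
    · intro g N hN hodd; exact g N (by omega) (Int.odd_iff.1 hodd)
    · intro g N hN hodd; exact g N (by omega) (Int.odd_iff.2 hodd)
  · have e : count S X = Pool.Agent.TH237.RT.ct (-1) S X := by
      unfold count Pool.Agent.TH237.RT.ct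
      congr 2
      ext N
      constructor
      · rintro ⟨g1, g2, g3, g4⟩
        refine ⟨by omega, ?_, Int.odd_iff.1 g2, g4⟩
        push_cast
        linarith
      · rintro ⟨g1, g2, g3, g4⟩
        refine ⟨by omega, Int.odd_iff.2 g3, ?_, g4⟩
        push_cast at g2
        linarith
    rw [e]
    exact h4 X hX

/-- There is a constant `C` such that:
(1) every set `S` of integers which contains a negative odd integer `N` if and only if it contains
`Syr N` has among the negative odd integers a natural density `δ`, and for all real `X ≥ 2` the number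
of the negative odd `N ≥ -X` in `S` is `δ X / 2` with an error of at most `C X / (log X)^(1/30)`;
`C` does not depend on `S`; `δ` is `0` only if `S` contains no negative odd integer, `1` only if it
contains all of them;
(2) the basins of the three known cycles have positive densities `δ₁, δ₂, δ₃`, of sum at most `1`, the
sum is `1` if and only if the answer to Q1 is yes, and for all `X ≥ 2` the numbers of the negative odd
`N ≥ -X` in the basins, and of those whose orbit meets none of the three cycles, are `δᵢ X / 2` and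
`(1 - δ₁ - δ₂ - δ₃) X / 2` with errors of at most `C X / (log X)^(1/30)`. -/
theorem result : ∃ C : ℝ, 0 < C ∧
    (∀ S : Set ℤ, Invariant S → ∃ δ : ℝ, 0 ≤ δ ∧ δ ≤ 1 ∧
      (δ = 0 ↔ ∀ N : ℤ, N < 0 → Odd N → N ∉ S) ∧ (δ = 1 ↔ ∀ N : ℤ, N < 0 → Odd N → N ∈ S) ∧
      ∀ X : ℝ, 2 ≤ X → |count S X - δ / 2 * X| ≤ C * X / (Real.log X) ^ (1 / 30 : ℝ)) ∧
    ∃ δ₁ δ₂ δ₃ : ℝ, 0 < δ₁ ∧ 0 < δ₂ ∧ 0 < δ₃ ∧ δ₁ + δ₂ + δ₃ ≤ 1 ∧
      (δ₁ + δ₂ + δ₃ = 1 ↔ ∀ N : ℤ, N < 0 → Odd N → ∃ k : ℕ, Syr^[k] N ∈ C₁ ∪ C₂ ∪ C₃) ∧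
      ∀ X : ℝ, 2 ≤ X →
        |count (Basin C₁) X - δ₁ / 2 * X| ≤ C * X / (Real.log X) ^ (1 / 30 : ℝ) ∧
        |count (Basin C₂) X - δ₂ / 2 * X| ≤ C * X / (Real.log X) ^ (1 / 30 : ℝ) ∧
        |count (Basin C₃) X - δ₃ / 2 * X| ≤ C * X / (Real.log X) ^ (1 / 30 : ℝ) ∧
        |count Exceptional X - (1 - δ₁ - δ₂ - δ₃) / 2 * X| ≤
          C * X / (Real.log X) ^ (1 / 30 : ℝ) := by
  obtain ⟨C, hC, h⟩ := main
  refine ⟨C, hC, h, ?_⟩
  have i1 : Invariant (Basin C₁) := fun N _ _ => basin_iff f1 N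
  have i2 : Invariant (Basin C₂) := fun N _ _ => basin_iff f2 N
  have i3 : Invariant (Basin C₃) := fun N _ _ => basin_iff f3 N
  have i0 : Invariant Exceptional := by
    rw [exc_eq]; exact inv_compl (inv_union (inv_union i1 i2) i3)
  have iu : Invariant Set.univ := fun N _ _ => by simp
  obtain ⟨δ₁, p1, -, q1, -, r1⟩ := h _ i1
  obtain ⟨δ₂, p2, -, q2, -, r2⟩ := h _ i2
  obtain ⟨δ₃, p3, -, q3, -, r3⟩ := h _ i3
  obtain ⟨δ₀, p0, -, q0, -, r0⟩ := h _ i0
  obtain ⟨δ, -, -, -, q, r⟩ := h _ iu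
  have hδ : δ = 1 := q.2 (fun N _ _ => Set.mem_univ N)
  have d12 : Disjoint (Basin C₁) (Basin C₂) := basin_disj f1 f2 (by decide)
  have d13 : Disjoint (Basin C₁) (Basin C₃) := basin_disj f1 f3 (by decide)
  have d23 : Disjoint (Basin C₂) (Basin C₃) := basin_disj f2 f3 (by decide)
  have hcnt : ∀ X, count Set.univ X =
      count (Basin C₁) X + count (Basin C₂) X + count (Basin C₃) X + count Exceptional X := by
    intro X
    rw [exc_eq, ← count_union d12, ← count_union (Set.disjoint_union_left.2 ⟨d13, d23⟩),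
      ← count_union disjoint_compl_right, Set.union_compl_self]
  have hsum : δ₁ + δ₂ + δ₃ + δ₀ = 1 := by
    have h0 : (δ₁ + δ₂ + δ₃ + δ₀ - 1) / 2 = 0 := by
      apply zero_of (C := 5 * C)
      intro X hX
      have g1 := r1 X hX
      have g2 := r2 X hX
      have g3 := r3 X hX
      have g0 := r0 X hX
      have g := r X hX
      rw [hcnt X, hδ] at g
      have e : 5 * C * X / (Real.log X) ^ (1 / 30 : ℝ) =
          5 * (C * X / (Real.log X) ^ (1 / 30 : ℝ)) := by ring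
      rw [e]
      rw [abs_le] at g1 g2 g3 g0 g ⊢
      constructor
      · linarith [g1.1, g1.2, g2.1, g2.2, g3.1, g3.2, g0.1, g0.2, g.1, g.2]
      · linarith [g1.1, g1.2, g2.1, g2.2, g3.1, g3.2, g0.1, g0.2, g.1, g.2]
    linarith
  have hpos : ∀ {Z : Finset ℤ} {δ' : ℝ} (z : ℤ), z < 0 → Odd z → z ∈ Z → 0 ≤ δ' →
      (δ' = 0 ↔ ∀ N : ℤ, N < 0 → Odd N → N ∉ Basin Z) → 0 < δ' := by
    intro Z δ' z hz hodd hzZ h0 hq
    rcases h0.lt_or_eq with h1 | h1
    · exact h1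
    · exfalso
      exact hq.1 h1.symm z hz hodd ⟨0, hzZ⟩
  refine ⟨δ₁, δ₂, δ₃, hpos (-1) (by norm_num) (by decide) (by decide) p1 q1,
    hpos (-5) (by norm_num) (by decide) (by decide) p2 q2,
    hpos (-17) (by norm_num) (by decide) (by decide) p3 q3, by linarith, ?_, fun X hX => ?_⟩
  · have e : δ₁ + δ₂ + δ₃ = 1 ↔ δ₀ = 0 := by constructor <;> intro g <;> linarith
    rw [e, q0]
    refine forall_congr' fun N => forall_congr' fun _ => forall_congr' fun _ => ?_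
    unfold Exceptional
    simp only [Set.mem_ofPred_eq, not_forall, not_not]
  · refine ⟨r1 X hX, r2 X hX, r3 X hX, ?_⟩
    have e : (1 - δ₁ - δ₂ - δ₃) = δ₀ := by linarith
    rw [e]
    exact r0 X hX

end Pool.Agent.Results.MP_005f52_nt.UniformRate
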